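import Mathlib

set_option autoImplicit false

/-!
# Polygonal knots, equivalence, superbridge index, connected sum
-/

namespace Pool.Agent.helper82.SB

open Matrix

/-- Three-dimensional space. -/
abbrev E3 := Fin 3 → ℝ

/-- A polygonal knot with `n ≥ 3` vertices `P 0, …, P (n - 1)` (indexed cyclically by `ℤ`): a simple
closed polygon in space. Adjacent edges meet only in their common vertex (they do not point in the
same direction from it; straight angles are allowed), other edges are disjoint. -/
structure PolyKnot where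
  /-- number of vertices -/
  n : ℕ
  /-- vertices, indexed by `ℤ` with period `n` -/
  P : ℤ → E3
  three : 3 ≤ n
  per : ∀ i, P (i + n) = P i
  corner : ∀ i, ¬ SameRay ℝ (P (i - 1) - P i) (P (i + 1) - P i)
  disj : ∀ i j : ℤ, i + 2 ≤ j → j + 2 ≤ i + n →
    Disjoint (segment ℝ (P i) (P (i + 1))) (segment ℝ (P j) (P (j + 1)))

/-- The closed curve of a polygonal knot. -/
def PolyKnot.trace (K : PolyKnot) : Set E3 := ⋃ i : ℤ, segment ℝ (K.P i) (K.P (i + 1))

/-- Elementary moves between polygonal knots: renumbering the vertices, adding a vertex in the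
interior of an edge, and continuous motion through polygonal knots with `n` vertices. -/
inductive Move : PolyKnot → PolyKnot → Prop
  | rotate (K L : PolyKnot) (hn : L.n = K.n) (h : ∀ i, L.P i = K.P (i + 1)) : Move K L
  | subdivide (K L : PolyKnot) (hn : L.n = K.n + 1)
      (h : ∀ i : ℤ, 0 ≤ i → i < K.n → L.P i = K.P i)
      (h' : L.P K.n ∈ openSegment ℝ (K.P (K.n - 1)) (K.P K.n)) : Move K L
  | isotopy (F : unitInterval → PolyKnot) (m : ℕ) (hn : ∀ t, (F t).n = m)
      (hc : ∀ i : ℤ, Continuous fun t => (F t).P i) : Move (F 0) (F 1)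

/-- Equivalence of (oriented) polygonal knots: the equivalence relation generated by the moves. -/
def Equivalent : PolyKnot → PolyKnot → Prop := Relation.EqvGen Move

/-- The number of (strict) local maxima of the height function `x ↦ ⟨v, x⟩` on the closed polygon
with vertices `P 0, …, P (n - 1)`. -/
noncomputable def maxima (n : ℕ) (P : ℤ → E3) (v : E3) : ℕ :=
  {i : ℕ | i < n ∧ v ⬝ᵥ P ((i : ℤ) - 1) < v ⬝ᵥ P i ∧ v ⬝ᵥ P ((i : ℤ) + 1) < v ⬝ᵥ P i}.ncard

/-- The superbridge index: the minimum over all conformations of the maximum over all directions of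
the number of local maxima. -/
noncomputable def superbridge (K : PolyKnot) : ℕ :=
  sInf {m : ℕ | ∃ L : PolyKnot, Equivalent K L ∧ ∀ v, maxima L.n L.P v ≤ m}

/-- The knot is trivial: it is equivalent to a polygon contained in a plane. -/
def Trivial (K : PolyKnot) : Prop :=
  ∃ L : PolyKnot, Equivalent K L ∧ ∃ v : E3, v ≠ 0 ∧ ∀ i j, v ⬝ᵥ L.P i = v ⬝ᵥ L.P j

/-- `Q` is obtained from the polygonal knots `K` and `L` by gluing along an edge: there is a compact
convex body `C` such that `K` meets `C` exactly in its last edge (from `x` to `y`), `L` lies in `C`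
and meets the boundary of `C` exactly in its last edge, which is the same segment with the opposite
orientation (from `y` to `x`), and `Q` is the union of `K` and `L` without this edge. -/
def Glued (K L Q : PolyKnot) : Prop :=
  L.P 0 = K.P (-1) ∧ L.P (-1) = K.P 0 ∧
  (∃ C : Set E3, IsCompact C ∧ Convex ℝ C ∧ (interior C).Nonempty ∧
    K.trace ∩ C = segment ℝ (K.P (-1)) (K.P 0) ∧ L.trace ⊆ C ∧
    L.trace ∩ frontier C = segment ℝ (K.P (-1)) (K.P 0)) ∧
  Q.n + 2 = K.n + L.n ∧
  (∀ i : ℤ, 0 ≤ i → i < K.n → Q.P i = K.P i) ∧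
  (∀ j : ℤ, 0 ≤ j → j < L.n → Q.P (K.n - 1 + j) = L.P j)

/-- `Q` is a connected sum of the (oriented) knots `K₁` and `K₂`. -/
def IsConnectedSum (K₁ K₂ Q : PolyKnot) : Prop :=
  ∃ L₁ L₂ L : PolyKnot, Equivalent K₁ L₁ ∧ Equivalent K₂ L₂ ∧ Glued L₁ L₂ L ∧ Equivalent L Q

end Pool.Agent.helper82.SB
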