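import Mathlib
import Pool.Agent.helper82.SB.Defs

set_option autoImplicit false

/-!
# Basic tools: edges, counting maxima, generic directions
-/

namespace Pool.Agent.helper82.SB

open Matrix Filter Topology

theorem Equivalent.refl (K : PolyKnot) : Equivalent K K := Relation.EqvGen.refl K

theorem Equivalent.symm {K L : PolyKnot} (h : Equivalent K L) : Equivalent L K :=
  Relation.EqvGen.symm _ _ h

theorem Equivalent.trans {K L M : PolyKnot} (h : Equivalent K L) (h' : Equivalent L M) :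
    Equivalent K M := Relation.EqvGen.trans _ _ _ h h'

theorem Move.equivalent {K L : PolyKnot} (h : Move K L) : Equivalent K L :=
  Relation.EqvGen.rel _ _ h

/-- Edge vectors. -/
def edge (P : ℤ → E3) (i : ℤ) : E3 := P (i + 1) - P i

/-- The determinant of three vectors. -/
def det3 (a b c : E3) : ℝ :=
  a 0 * (b 1 * c 2 - b 2 * c 1) - a 1 * (b 0 * c 2 - b 2 * c 0) + a 2 * (b 0 * c 1 - b 1 * c 0)

theorem cross_dot (a b c : E3) : (crossProduct a b) ⬝ᵥ c = det3 a b c := by
  simp [det3, dotProduct, Fin.sum_univ_three, cross_apply]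
  ring

theorem dot_expand (v w : E3) : v ⬝ᵥ w = v 0 * w 0 + v 1 * w 1 + v 2 * w 2 := by
  simp [dotProduct, Fin.sum_univ_three]

theorem edge_per {n : ℕ} {P : ℤ → E3} (h : ∀ i, P (i + n) = P i) (i : ℤ) :
    edge P (i + n) = edge P i := by
  unfold edge
  rw [show i + n + 1 = i + 1 + n by ring, h, h]

open scoped Classical in
/-- `D s t = 1` if `s > 0 > t`, otherwise `0`. -/
noncomputable def D (s t : ℝ) : ℕ := if 0 < s ∧ t < 0 then 1 else 0

theorem maxima_eq_ncard (n : ℕ) (P : ℤ → E3) (v : E3) :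
    maxima n P v =
      {i : ℕ | i < n ∧ 0 < v ⬝ᵥ edge P ((i : ℤ) - 1) ∧ v ⬝ᵥ edge P i < 0}.ncard := by
  unfold maxima edge
  congr 1
  ext i
  simp only [Set.mem_ofPred_eq, dotProduct_sub, sub_pos, sub_neg, sub_add_cancel]

theorem maxima_eq_sum (n : ℕ) (P : ℤ → E3) (v : E3) :
    maxima n P v =
      ∑ i ∈ Finset.range n, D (v ⬝ᵥ edge P ((i : ℤ) - 1)) (v ⬝ᵥ edge P i) := by
  classical
  rw [maxima_eq_ncard]
  have : {i : ℕ | i < n ∧ 0 < v ⬝ᵥ edge P ((i : ℤ) - 1) ∧ v ⬝ᵥ edge P i < 0} =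
      ((Finset.range n).filter fun i : ℕ =>
        0 < v ⬝ᵥ edge P ((i : ℤ) - 1) ∧ v ⬝ᵥ edge P i < 0 : Finset ℕ) := by
    ext i
    simp
  rw [this, Set.ncard_coe_finset, Finset.card_filter]
  apply Finset.sum_congr rfl
  intro i _
  unfold D
  congr

theorem maxima_le (n : ℕ) (P : ℤ → E3) (v : E3) : maxima n P v ≤ n := by
  rw [maxima_eq_sum]
  calc _ ≤ ∑ i ∈ Finset.range n, 1 := by
        apply Finset.sum_le_sum
        intro i _
        unfold D
        split_ifs <;> simp
    _ = n := by simp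

/-- A sum over a period does not depend on the starting point. -/
theorem sum_shift {α : Type*} [AddCommMonoid α] (n : ℕ) (f : ℤ → α) (hf : ∀ i, f (i + n) = f i)
    (k : ℤ) : ∑ i ∈ Finset.range n, f (i + k) = ∑ i ∈ Finset.range n, f i := by
  rcases Nat.eq_zero_or_pos n with rfl | hn
  · simp
  have key : ∀ k : ℤ, ∑ i ∈ Finset.range n, f (i + (k + 1)) = ∑ i ∈ Finset.range n, f (i + k) := by
    intro k
    have h1 : ∑ i ∈ Finset.range (n + 1), f (i + k) =
        ∑ i ∈ Finset.range n, f (i + (k + 1)) + f k := by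
      rw [Finset.sum_range_succ']
      congr 1
      · apply Finset.sum_congr rfl
        intro i _
        congr 1
        push_cast
        ring
      · simp
    have h2 : ∑ i ∈ Finset.range (n + 1), f (i + k) =
        ∑ i ∈ Finset.range n, f (i + k) + f k := by
      rw [Finset.sum_range_succ]
      congr 1
      rw [show (n : ℤ) + k = k + n by ring, hf]
    -- compare with one more term of the period
    have h3 : ∑ i ∈ Finset.range n, f (i + k) = f k + ∑ i ∈ Finset.range (n - 1), f (i + (k + 1)) := by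
      obtain ⟨m, rfl⟩ : ∃ m, n = m + 1 := ⟨n - 1, by omega⟩
      rw [Finset.sum_range_succ']
      simp only [Nat.add_sub_cancel]
      rw [add_comm]
      congr 1
      · simp
      · apply Finset.sum_congr rfl
        intro i _
        congr 1
        push_cast
        ring
    have h4 : ∑ i ∈ Finset.range n, f (i + (k + 1)) =
        ∑ i ∈ Finset.range (n - 1), f (i + (k + 1)) + f k := by
      obtain ⟨m, rfl⟩ : ∃ m, n = m + 1 := ⟨n - 1, by omega⟩
      rw [Finset.sum_range_succ]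
      simp only [Nat.add_sub_cancel]
      congr 1
      have := hf k
      rw [← this]
      congr 1
      push_cast
      ring
    rw [h3, h4, add_comm]
  have up : ∀ m : ℕ, ∑ i ∈ Finset.range n, f (i + m) = ∑ i ∈ Finset.range n, f i := by
    intro m
    induction m with
    | zero => simp
    | succ m ih =>
      rw [← ih]
      push_cast
      exact key m
  have down : ∀ m : ℕ, ∑ i ∈ Finset.range n, f (i + (-m : ℤ)) = ∑ i ∈ Finset.range n, f i := by
    intro m
    induction m with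
    | zero => simp
    | succ m ih =>
      rw [← ih, ← key (-((m + 1 : ℕ) : ℤ))]
      apply Finset.sum_congr rfl
      intro i _
      congr 1
      push_cast
      ring
  rcases Int.eq_nat_or_neg k with ⟨m, rfl | rfl⟩
  · exact up m
  · exact down m

theorem maxima_rotate {n : ℕ} {P : ℤ → E3} (h : ∀ i, P (i + n) = P i) (k : ℤ) (v : E3) :
    maxima n (fun i => P (i + k)) v = maxima n P v := by
  rw [maxima_eq_sum, maxima_eq_sum]
  have h1 := sum_shift n (fun i : ℤ => D (v ⬝ᵥ edge P (i - 1)) (v ⬝ᵥ edge P i)) (by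
    intro i
    have e1 := edge_per h (i - 1)
    have e2 := edge_per h i
    rw [show i + n - 1 = i - 1 + n by ring, e1, e2]) k
  rw [← h1]
  apply Finset.sum_congr rfl
  intro i _
  have e : ∀ j : ℤ, edge (fun i => P (i + k)) j = edge P (j + k) := by
    intro j
    show P (j + 1 + k) - P (j + k) = P (j + k + 1) - P (j + k)
    rw [show j + 1 + k = j + k + 1 by ring]
  rw [e, e]
  rw [show (i : ℤ) - 1 + k = i + k - 1 by ring]

/-- Renumbering by any integer. -/
theorem exists_rotate (K : PolyKnot) (k : ℤ) :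
    ∃ L : PolyKnot, L.n = K.n ∧ (∀ i, L.P i = K.P (i + k)) ∧ Equivalent K L ∧
      ∀ v, maxima L.n L.P v = maxima K.n K.P v := by
  have build : ∀ k : ℤ, ∃ L : PolyKnot, L.n = K.n ∧ (∀ i, L.P i = K.P (i + k)) := by
    intro k
    refine ⟨⟨K.n, fun i => K.P (i + k), K.three, ?_, ?_, ?_⟩, rfl, fun _ => rfl⟩
    · intro i
      show K.P (i + K.n + k) = K.P (i + k)
      rw [show i + K.n + k = i + k + K.n by ring, K.per]
    · intro i
      have := K.corner (i + k)
      rw [show i + k - 1 = i - 1 + k by ring, show i + k + 1 = i + 1 + k by ring] at this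
      exact this
    · intro i j h1 h2
      have := K.disj (i + k) (j + k) (by omega) (by omega)
      rw [show i + k + 1 = i + 1 + k by ring, show j + k + 1 = j + 1 + k by ring] at this
      exact this
  have key : ∀ k : ℤ, ∀ L L' : PolyKnot, L.n = K.n → (∀ i, L.P i = K.P (i + k)) →
      L'.n = K.n → (∀ i, L'.P i = K.P (i + (k + 1))) → Move L L' := by
    intro k L L' h1 h2 h3 h4
    apply Move.rotate L L' (by rw [h1, h3])
    intro i
    rw [h4, h2]
    congr 1
    ring
  have ext0 : ∀ L L' : PolyKnot, L.n = L'.n → (∀ i, L.P i = L'.P i) → L = L' := by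
    intro L L' h1 h2
    cases L; cases L'
    simp only at h1 h2
    subst h1
    have := funext h2
    subst this
    rfl
  have up : ∀ m : ℕ, ∃ L : PolyKnot, L.n = K.n ∧ (∀ i, L.P i = K.P (i + m)) ∧ Equivalent K L := by
    intro m
    induction m with
    | zero => exact ⟨K, rfl, by simp, Equivalent.refl K⟩
    | succ m ih =>
      obtain ⟨L, h1, h2, h3⟩ := ih
      obtain ⟨L', h4, h5⟩ := build ((m : ℤ) + 1)
      refine ⟨L', h4, ?_, h3.trans (key m L L' h1 h2 h4 h5).equivalent⟩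
      intro i
      rw [h5]
      push_cast
      rfl
  have down : ∀ m : ℕ, ∃ L : PolyKnot, L.n = K.n ∧ (∀ i, L.P i = K.P (i + (-m : ℤ))) ∧
      Equivalent K L := by
    intro m
    induction m with
    | zero => exact ⟨K, rfl, by simp, Equivalent.refl K⟩
    | succ m ih =>
      obtain ⟨L, h1, h2, h3⟩ := ih
      obtain ⟨L', h4, h5⟩ := build (-((m + 1 : ℕ) : ℤ))
      refine ⟨L', h4, h5, h3.trans ?_⟩
      refine (key (-((m + 1 : ℕ) : ℤ)) L' L h4 h5 h1 ?_).equivalent.symm
      intro i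
      rw [h2]
      congr 1
      push_cast
      ring
  have hmax : ∀ k : ℤ, ∀ L : PolyKnot, L.n = K.n → (∀ i, L.P i = K.P (i + k)) →
      ∀ v, maxima L.n L.P v = maxima K.n K.P v := by
    intro k L h1 h2 v
    rw [h1, funext h2]
    exact maxima_rotate K.per k v
  rcases Int.eq_nat_or_neg k with ⟨m, rfl | rfl⟩
  · obtain ⟨L, h1, h2, h3⟩ := up m
    exact ⟨L, h1, h2, h3, hmax _ L h1 h2⟩
  · obtain ⟨L, h1, h2, h3⟩ := down m
    exact ⟨L, h1, h2, h3, hmax _ L h1 h2⟩

theorem PolyKnot.ext' {K L : PolyKnot} (h1 : K.n = L.n) (h2 : K.P = L.P) : K = L := by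
  cases K; cases L
  simp only at h1 h2
  subst h1
  subst h2
  rfl

theorem edge_ne_zero (K : PolyKnot) (i : ℤ) : edge K.P i ≠ 0 := by
  intro h
  apply K.corner i
  unfold edge at h
  rw [h]
  exact SameRay.zero_right _

theorem superbridge_spec (K : PolyKnot) :
    ∃ L : PolyKnot, Equivalent K L ∧ ∀ v, maxima L.n L.P v ≤ superbridge K :=
  Nat.sInf_mem (s := {m : ℕ | ∃ L : PolyKnot, Equivalent K L ∧ ∀ v, maxima L.n L.P v ≤ m})
    ⟨K.n, K, Equivalent.refl K, fun v => maxima_le _ _ v⟩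

theorem superbridge_le {K L : PolyKnot} (h : Equivalent K L) {m : ℕ}
    (hm : ∀ v, maxima L.n L.P v ≤ m) : superbridge K ≤ m :=
  Nat.sInf_le ⟨L, h, hm⟩

theorem superbridge_congr {K L : PolyKnot} (h : Equivalent K L) : superbridge K = superbridge L := by
  apply le_antisymm
  · obtain ⟨L', h1, h2⟩ := superbridge_spec L
    exact superbridge_le (h.trans h1) h2
  · obtain ⟨L', h1, h2⟩ := superbridge_spec K
    exact superbridge_le (h.symm.trans h1) h2

theorem continuous_dot_left (w : E3) : Continuous fun v : E3 => v ⬝ᵥ w := by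
  simp only [dot_expand]
  fun_prop

/-- Lower semicontinuity of the number of maxima, jointly in direction and polygon. -/
theorem maxima_lsc {X : Type*} [TopologicalSpace X] (n : ℕ) (P : X → ℤ → E3) (V : X → E3) (x₀ : X)
    (hP : ∀ i, ContinuousAt (fun x => P x i) x₀) (hV : ContinuousAt V x₀) :
    ∀ᶠ x in 𝓝 x₀, maxima n (P x₀) (V x₀) ≤ maxima n (P x) (V x) := by
  have hdot : ∀ i j, ContinuousAt (fun x => V x ⬝ᵥ P x i - V x ⬝ᵥ P x j) x₀ := by
    intro i j
    simp only [dot_expand]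
    have h0 : ∀ k : Fin 3, ContinuousAt (fun x => V x k) x₀ := fun k =>
      (continuous_apply k).continuousAt.comp hV
    have h1 : ∀ i, ∀ k : Fin 3, ContinuousAt (fun x => P x i k) x₀ := fun i k =>
      ContinuousAt.comp (f := fun x => P x i) (g := fun y : E3 => y k)
        (continuous_apply k).continuousAt (hP i)
    have a0 := h0 0
    have a1 := h0 1
    have a2 := h0 2
    have b0 := h1 i 0
    have b1 := h1 i 1
    have b2 := h1 i 2
    have c0 := h1 j 0
    have c1 := h1 j 1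
    have c2 := h1 j 2
    fun_prop
  have hev : ∀ i j : ℤ, V x₀ ⬝ᵥ P x₀ i < V x₀ ⬝ᵥ P x₀ j →
      ∀ᶠ x in 𝓝 x₀, V x ⬝ᵥ P x i < V x ⬝ᵥ P x j := by
    intro i j h
    have := (hdot j i).eventually (lt_mem_nhds (sub_pos.mpr h))
    filter_upwards [this] with x hx
    exact sub_pos.mp hx
  have hfin : ∀ᶠ x in 𝓝 x₀, ∀ i ∈ Finset.range n,
      (V x₀ ⬝ᵥ P x₀ ((i : ℤ) - 1) < V x₀ ⬝ᵥ P x₀ i ∧
        V x₀ ⬝ᵥ P x₀ ((i : ℤ) + 1) < V x₀ ⬝ᵥ P x₀ i) →
      (V x ⬝ᵥ P x ((i : ℤ) - 1) < V x ⬝ᵥ P x i ∧ V x ⬝ᵥ P x ((i : ℤ) + 1) < V x ⬝ᵥ P x i) := by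
    rw [Filter.eventually_all_finset]
    intro i _
    by_cases h : (V x₀ ⬝ᵥ P x₀ ((i : ℤ) - 1) < V x₀ ⬝ᵥ P x₀ i ∧
        V x₀ ⬝ᵥ P x₀ ((i : ℤ) + 1) < V x₀ ⬝ᵥ P x₀ i)
    · filter_upwards [hev _ _ h.1, hev _ _ h.2] with x h1 h2 _
      exact ⟨h1, h2⟩
    · exact Filter.Eventually.of_forall fun x h' => absurd h' h
  filter_upwards [hfin] with x hx
  unfold maxima
  apply Set.ncard_le_ncard
  · rintro i ⟨h1, h2⟩
    exact ⟨h1, hx i (Finset.mem_range.mpr h1) h2⟩
  · exact (Set.finite_lt_nat n).subset fun i hi => hi.1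

/-- Directions that are not orthogonal to any nonzero vector of a finite set are dense. -/
theorem dense_generic (S : Set E3) (hS : S.Finite) :
    Dense {v : E3 | ∀ w ∈ S, w ≠ 0 → v ⬝ᵥ w ≠ 0} := by
  have h1 : ∀ w : E3, w ≠ 0 → Dense {v : E3 | v ⬝ᵥ w ≠ 0} := by
    intro w hw
    rw [dense_iff_inter_open]
    rintro U hU ⟨v, hv⟩
    by_cases h : v ⬝ᵥ w = 0
    · have hc : Continuous fun t : ℝ => v + t • w := by fun_prop
      have h2 : ∀ᶠ t in 𝓝 (0 : ℝ), v + t • w ∈ U := by
        apply hc.continuousAt.eventually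
        simpa using hU.mem_nhds hv
      have h3 : ∀ᶠ t in 𝓝[≠] (0 : ℝ), v + t • w ∈ U := h2.filter_mono nhdsWithin_le_nhds
      obtain ⟨t, ht, ht0⟩ := (h3.and self_mem_nhdsWithin).exists
      refine ⟨v + t • w, ht, ?_⟩
      show (v + t • w) ⬝ᵥ w ≠ 0
      rw [add_dotProduct, h, zero_add, smul_dotProduct, smul_eq_mul]
      apply mul_ne_zero ht0
      intro h0
      exact hw (dotProduct_self_eq_zero.mp h0)
    · exact ⟨v, hv, h⟩
  have h2 : {v : E3 | ∀ w ∈ S, w ≠ 0 → v ⬝ᵥ w ≠ 0} =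
      ⋂ w ∈ S, {v : E3 | w ≠ 0 → v ⬝ᵥ w ≠ 0} := by
    ext v
    simp
  rw [h2]
  apply dense_biInter_of_isOpen
  · intro w _
    by_cases hw : w = 0
    · simp [hw]
    · have : {v : E3 | w ≠ 0 → v ⬝ᵥ w ≠ 0} = {v : E3 | v ⬝ᵥ w ≠ 0} := by
        ext v; simp [hw]
      rw [this]
      exact isOpen_ne_fun (continuous_dot_left w) continuous_const
  · exact hS.countable
  · intro w _
    by_cases hw : w = 0
    · simp [hw]
    · have : {v : E3 | w ≠ 0 → v ⬝ᵥ w ≠ 0} = {v : E3 | v ⬝ᵥ w ≠ 0} := by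
        ext v; simp [hw]
      rw [this]
      exact h1 w hw

/-- To bound the number of maxima it is enough to consider generic directions. -/
theorem bound_of_generic (n : ℕ) (P : ℤ → E3) (M : ℕ) (S : Set E3) (hS : S.Finite)
    (h : ∀ v, (∀ w ∈ S, w ≠ 0 → v ⬝ᵥ w ≠ 0) → maxima n P v ≤ M) (v : E3) :
    maxima n P v ≤ M := by
  have h1 := maxima_lsc n (fun _ : E3 => P) (fun v => v) v (fun i => continuousAt_const)
    continuousAt_id
  obtain ⟨v', h2, h3⟩ := (dense_generic S hS).exists_mem_open isOpen_interior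
    (⟨v, mem_interior_iff_mem_nhds.mpr h1⟩ :
      (interior {x : E3 | maxima n P v ≤ maxima n P x}).Nonempty)
  have h4 := interior_subset h3
  exact le_trans h4 (h v' h2)

/-- The same, near a point. -/
theorem exists_generic_near (n : ℕ) (P : ℤ → E3) (S : Set E3) (hS : S.Finite) (v : E3)
    (U : Set E3) (hU : U ∈ 𝓝 v) :
    ∃ v' ∈ U, (∀ w ∈ S, w ≠ 0 → v' ⬝ᵥ w ≠ 0) ∧ maxima n P v ≤ maxima n P v' := by
  have h1 := maxima_lsc n (fun _ : E3 => P) (fun v => v) v (fun i => continuousAt_const)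
    continuousAt_id
  have h2 : U ∩ {x : E3 | maxima n P v ≤ maxima n P x} ∈ 𝓝 v := Filter.inter_mem hU h1
  obtain ⟨v', h3, h4⟩ := (dense_generic S hS).exists_mem_open isOpen_interior
    (⟨v, mem_interior_iff_mem_nhds.mpr h2⟩ : (interior (U ∩ _)).Nonempty)
  have h5 := interior_subset h4
  exact ⟨v', h5.1, h3, h5.2⟩

end Pool.Agent.helper82.SB
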