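import Mathlib
import Pool.Agent.helper82.SB.Basic

set_option autoImplicit false

/-!
# Shared definitions for the modules
-/

namespace Pool.Agent.helper82.SB

open Matrix Filter Topology

/-- The `(n+1)`-periodic sequence with values `P 0, …, P (n - 2), x, y` at `0, …, n`. -/
def cutP (n : ℕ) (P : ℤ → E3) (x y : E3) : ℤ → E3 := fun i =>
  if i % ((n : ℤ) + 1) = n - 1 then x
  else if i % ((n : ℤ) + 1) = n then y
  else P (i % ((n : ℤ) + 1))

/-- Any three edges (with different indices modulo `n`) are linearly independent. -/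
def Gen (n : ℕ) (P : ℤ → E3) : Prop :=
  ∀ i j k : ℤ, i < j → j < k → k < i + n → det3 (edge P i) (edge P j) (edge P k) ≠ 0

/-- The last edge `g` (from `P (-1)` to `P 0`) is tiny: at most `κ` times the radius of a ball around
`P (-1)` that meets only `g` and the two adjacent edges. -/
def Port (L : PolyKnot) (κ : ℝ) : Prop :=
  4 ≤ L.n ∧ ∃ R : ℝ, 0 < R ∧ ‖edge L.P (-1)‖ ≤ κ * R ∧
    ∀ i : ℤ, 1 ≤ i → i < L.n - 2 →
      Disjoint (segment ℝ (L.P i) (L.P (i + 1))) (Metric.closedBall (L.P (-1)) R)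

/-- The last edge is exposed: it lies in a plane that has all other vertices strictly on one side. -/
def Exposed (L : PolyKnot) : Prop :=
  4 ≤ L.n ∧ ∃ ν : E3, ν ⬝ᵥ edge L.P (-1) = 0 ∧
    ∀ i : ℤ, 0 < i → i < L.n - 1 → ν ⬝ᵥ L.P 0 < ν ⬝ᵥ L.P i

/-- The torsion sign datum of the last edge. -/
def tor (L : PolyKnot) : ℝ := det3 (edge L.P (-2)) (edge L.P (-1)) (edge L.P 0)

end Pool.Agent.helper82.SB
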