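import Mathlib
import Pool.Agent.helper82.SB.Shared

set_option autoImplicit false

/-!
# The chain lemma: a closed locally convex spherical polygon (dual curve) whose underlying vectors sum
# to zero has a doubly active point
-/

namespace Pool.Agent.helper82.SB

open Matrix Filter Topology

namespace Chain

theorem det3_cyc (a b c : E3) : det3 a b c = det3 b c a := by
  unfold det3; ring

theorem det3_swap (a b c : E3) : det3 a b c = - det3 b a c := by
  unfold det3; ring

theorem det3_swap' (a b c : E3) : det3 a b c = - det3 a c b := by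
  unfold det3; ring

/-- Three-term Grassmann-Plücker relation. -/
theorem plucker (z a b c d : E3) :
    det3 z a b * det3 z c d - det3 z a c * det3 z b d + det3 z a d * det3 z b c = 0 := by
  unfold det3; ring

/-- The linear relation between four vectors, paired with `v`. -/
theorem four_rel (v a b c d : E3) :
    det3 b c d * (v ⬝ᵥ a) - det3 a c d * (v ⬝ᵥ b) + det3 a b d * (v ⬝ᵥ c)
      - det3 a b c * (v ⬝ᵥ d) = 0 := by
  simp only [dot_expand]
  unfold det3; ring

variable {N : ℕ} {e : ℤ → E3}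

/-- All increasing triples in `[j, k]` are positive. -/
def CC (e : ℤ → E3) (j k : ℤ) : Prop :=
  ∀ a b c : ℤ, j ≤ a → a < b → b < c → c ≤ k → 0 < det3 (e a) (e b) (e c)

theorem right_ext {j k : ℤ} (hCC : CC e j k) (hjk : j + 2 ≤ k)
    (hpos : ∀ i : ℤ, 0 < det3 (e (i - 1)) (e i) (e (i + 1)))
    (h : 0 < det3 (e j) (e k) (e (k + 1))) (m : ℤ) (h1 : j ≤ m) (h2 : m < k) :
    0 < det3 (e m) (e k) (e (k + 1)) := by
  rcases eq_or_lt_of_le h1 with rfl | h1
  · exact h
  rcases eq_or_lt_of_le (show m ≤ k - 1 by omega) with rfl | h2'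
  · exact hpos k
  have r := four_rel (crossProduct (e k) (e (k + 1))) (e j) (e m) (e (k - 1)) (e k)
  rw [cross_dot, cross_dot, cross_dot, cross_dot] at r
  have z : det3 (e k) (e (k + 1)) (e k) = 0 := by unfold det3; ring
  rw [z, mul_zero, sub_zero] at r
  have e1 : det3 (e k) (e (k + 1)) (e j) = det3 (e j) (e k) (e (k + 1)) := (det3_cyc _ _ _).symm
  have e2 : det3 (e k) (e (k + 1)) (e m) = det3 (e m) (e k) (e (k + 1)) := (det3_cyc _ _ _).symm
  have e3 : det3 (e k) (e (k + 1)) (e (k - 1)) = det3 (e (k - 1)) (e k) (e (k + 1)) :=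
    (det3_cyc _ _ _).symm
  rw [e1, e2, e3] at r
  have p1 := hCC m (k - 1) k (by omega) (by omega) (by omega) le_rfl
  have p2 := hCC j (k - 1) k le_rfl (by omega) (by omega) le_rfl
  have p3 := hCC j m k le_rfl (by omega) (by omega) le_rfl
  have p4 := hpos k
  by_contra hc
  push Not at hc
  have q1 : 0 < det3 (e m) (e (k - 1)) (e k) * det3 (e j) (e k) (e (k + 1)) := mul_pos p1 h
  have q2 : 0 < det3 (e j) (e m) (e k) * det3 (e (k - 1)) (e k) (e (k + 1)) := mul_pos p3 p4
  have q3 : det3 (e j) (e (k - 1)) (e k) * det3 (e m) (e k) (e (k + 1)) ≤ 0 :=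
    mul_nonpos_of_nonneg_of_nonpos p2.le hc
  linarith

theorem full_ext {j k : ℤ} (hCC : CC e j k)
    (hR : ∀ m : ℤ, j ≤ m → m < k → 0 < det3 (e m) (e k) (e (k + 1)))
    (hf : ∀ m : ℤ, j ≤ m → m < k → 0 < det3 (e m) (e (m + 1)) (e (k + 1))) :
    CC e j (k + 1) := by
  have key : ∀ d : ℕ, ∀ a b : ℤ, j ≤ a → b = a + 1 + d → b ≤ k →
      0 < det3 (e a) (e b) (e (k + 1)) := by
    intro d
    induction d with
    | zero =>
      intro a b h1 h2 h3
      have : b = a + 1 := by simpa using h2
      subst this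
      exact hf a h1 (by omega)
    | succ d ih =>
      intro a b h1 h2 h3
      rcases eq_or_lt_of_le h3 with rfl | h3
      · exact hR a h1 (by push_cast at h2; omega)
      have i1 := ih a (b - 1) h1 (by push_cast at h2; omega) (by omega)
      have r := plucker (e (k + 1)) (e a) (e (b - 1)) (e b) (e k)
      have c1 : ∀ x y : ℤ, det3 (e (k + 1)) (e x) (e y) = det3 (e x) (e y) (e (k + 1)) :=
        fun x y => det3_cyc _ _ _
      rw [c1, c1, c1, c1, c1, c1] at r
      have p1 := hR b (by push_cast at h2; omega) h3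
      have p2 := hR (b - 1) (by push_cast at h2; omega) (by omega)
      have p3 := hR a h1 (by push_cast at h2; omega)
      have p4 := hf (b - 1) (by push_cast at h2; omega) (by omega)
      rw [show b - 1 + 1 = b by ring] at p4
      by_contra hc
      push Not at hc
      have q1 := mul_pos i1 p1
      have q2 := mul_pos p3 p4
      have q3 := mul_nonpos_of_nonpos_of_nonneg hc p2.le
      linarith
  intro a b c h1 h2 h3 h4
  rcases eq_or_lt_of_le h4 with rfl | h4
  · exact key (b - a - 1).toNat a b h1 (by omega) (by omega)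
  · exact hCC a b c h1 h2 h3 (by omega)

theorem sub_CC {j j' k k' : ℤ} (h : CC e j k) (h1 : j ≤ j') (h2 : k' ≤ k) : CC e j' k' :=
  fun a b c ha hb hc hk => h a b c (by omega) hb hc (by omega)

theorem full_chain_false (hN : 4 ≤ N) (hper : ∀ i, e (i + N) = e i)
    (hsum : ∑ i ∈ Finset.range N, e i = 0) (j : ℤ) (h : CC e j (j + N - 1)) : False := by
  set k := j + N - 1 with hk
  set v : E3 := crossProduct (e k) (e j) + crossProduct (e j) (e (j + 1)) +
    crossProduct (e (k - 1)) (e k) with hv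
  have hpos : ∀ m : ℤ, j ≤ m → m ≤ k → 0 < v ⬝ᵥ e m := by
    intro m h1 h2
    rw [hv, add_dotProduct, add_dotProduct, cross_dot, cross_dot, cross_dot]
    have c1 : det3 (e k) (e j) (e m) = det3 (e j) (e m) (e k) := det3_cyc _ _ _
    have c3 : det3 (e (k - 1)) (e k) (e m) = det3 (e m) (e (k - 1)) (e k) := (det3_cyc _ _ _).symm
    rw [c1, c3]
    have z1 : ∀ a b : E3, det3 a a b = 0 := by intro a b; unfold det3; ring
    have z2 : ∀ a b : E3, det3 a b b = 0 := by intro a b; unfold det3; ring
    have z3 : ∀ a b : E3, det3 a b a = 0 := by intro a b; unfold det3; ring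
    rcases eq_or_lt_of_le h1 with rfl | h1
    · rw [z1, z3]
      have := h j (k - 1) k le_rfl (by omega) (by omega) le_rfl
      linarith
    rcases eq_or_lt_of_le h2 with rfl | h2
    · rw [z2, z3]
      have := h j (j + 1) k le_rfl (by omega) (by omega) le_rfl
      linarith
    have p1 := h j m k le_rfl h1 h2 le_rfl
    have p2 : 0 ≤ det3 (e j) (e (j + 1)) (e m) := by
      rcases eq_or_lt_of_le (show j + 1 ≤ m by omega) with h3 | h3
      · rw [← h3, z2]
      · exact (h j (j + 1) m le_rfl (by omega) h3 h2.le).le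
    have p3 : 0 ≤ det3 (e m) (e (k - 1)) (e k) := by
      rcases eq_or_lt_of_le (show m ≤ k - 1 by omega) with h3 | h3
      · rw [h3, z1]
      · exact (h m (k - 1) k h1.le h3 (by omega) le_rfl).le
    linarith
  have hs : ∑ i ∈ Finset.range N, e (i + j) = 0 := by
    rw [sum_shift N e hper j, hsum]
  have h1 : ∑ i ∈ Finset.range N, v ⬝ᵥ e (i + j) = 0 := by
    rw [← dotProduct_sum, hs, dotProduct_zero]
  have h2 : 0 < ∑ i ∈ Finset.range N, v ⬝ᵥ e (i + j) := by
    apply Finset.sum_pos
    · intro i hi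
      have := Finset.mem_range.mp hi
      exact hpos _ (by omega) (by omega)
    · exact ⟨0, Finset.mem_range.mpr (by omega)⟩
  linarith

/-- Hypotheses of the chain lemma together with the negation of the conclusion. -/
structure Bad (N : ℕ) (e : ℤ → E3) : Prop where
  hN : 4 ≤ N
  per : ∀ i, e (i + N) = e i
  sum : ∑ i ∈ Finset.range N, e i = 0
  gen : ∀ i j k : ℤ, i < j → j < k → k < i + N → det3 (e i) (e j) (e k) ≠ 0
  pos : ∀ i : ℤ, 0 < det3 (e (i - 1)) (e i) (e (i + 1))
  no : ∀ (i j : ℤ) (c : E3), i + 2 ≤ j → j + 2 ≤ i + N → c ⬝ᵥ e i = 0 → c ⬝ᵥ e j = 0 →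
    0 < c ⬝ᵥ e (i - 1) → 0 < c ⬝ᵥ e (i + 1) → 0 < c ⬝ᵥ e (j - 1) → 0 < c ⬝ᵥ e (j + 1) → False

theorem Bad.dich (h : Bad N e) {j k : ℤ} (hCC : CC e j k) (h1 : j + 2 ≤ k) (h2 : k + 2 ≤ j + N)
    (h3 : det3 (e (j - 1)) (e j) (e k) < 0) (h4 : det3 (e j) (e k) (e (k + 1)) < 0) : False := by
  apply h.no j k (crossProduct (e k) (e j)) h1 h2
  · rw [cross_dot]; unfold det3; ring
  · rw [cross_dot]; unfold det3; ring
  · rw [cross_dot]
    have : det3 (e k) (e j) (e (j - 1)) = - det3 (e (j - 1)) (e j) (e k) := by unfold det3; ring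
    linarith
  · rw [cross_dot, det3_cyc]
    exact hCC j (j + 1) k le_rfl (by omega) (by omega) le_rfl
  · rw [cross_dot, det3_cyc]
    exact hCC j (k - 1) k le_rfl (by omega) (by omega) le_rfl
  · rw [cross_dot]
    have : det3 (e k) (e j) (e (k + 1)) = - det3 (e j) (e k) (e (k + 1)) := by unfold det3; ring
    linarith

/-- The state of the run. -/
def St (N : ℕ) (e : ℤ → E3) (j k : ℤ) : Prop :=
  j + 2 ≤ k ∧ k + 2 ≤ j + N ∧ CC e j k ∧ det3 (e (j - 1)) (e j) (e k) < 0

/-- Functionals that are nonnegative on the vectors of the chain. -/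
def H (e : ℤ → E3) (j k : ℤ) : Set E3 := {v | ∀ m : ℤ, j ≤ m → m ≤ k → 0 ≤ v ⬝ᵥ e m}

theorem Bad.step (h : Bad N e) {j k : ℤ} (hSt : St N e j k) :
    ∃ j' : ℤ, St N e j' (k + 1) ∧ H e j' (k + 1) ⊆ H e j k ∧ ∃ x ∈ H e j k, x ∉ H e j' (k + 1) := by
  obtain ⟨h1, h2, hCC, hS⟩ := hSt
  have hgk : det3 (e j) (e k) (e (k + 1)) ≠ 0 := h.gen _ _ _ (by omega) (by omega) (by omega)
  have hk : 0 < det3 (e j) (e k) (e (k + 1)) := by
    rcases lt_or_gt_of_ne hgk with h3 | h3
    · exact absurd (h.dich hCC h1 h2 hS h3) id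
    · exact h3
  have hR := right_ext hCC h1 h.pos hk
  -- the least `j'` with all `f > 0` on `[j', k - 1]`
  have hex : ∃ d : ℕ, (d : ℤ) ≤ k - 1 - j ∧
      ∀ m : ℤ, j + d ≤ m → m < k → 0 < det3 (e m) (e (m + 1)) (e (k + 1)) := by
    refine ⟨(k - 1 - j).toNat, by omega, ?_⟩
    intro m h3 h4
    have : m = k - 1 := by omega
    subst this
    rw [show k - 1 + 1 = k by ring]
    exact h.pos k
  classical
  obtain ⟨hd1, hd2⟩ := Nat.find_spec hex
  have hmin := fun d' (hd' : d' < Nat.find hex) => Nat.find_min hex hd'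
  set d := Nat.find hex with hd
  set j' : ℤ := j + d with hj'
  have hCC' : CC e j' (k + 1) :=
    full_ext (sub_CC hCC (by omega) le_rfl) (fun m h3 h4 => hR m (by omega) h4) hd2
  have hx : crossProduct (e k) (e j) ∈ H e j k := by
    intro m h3 h4
    rw [cross_dot, det3_cyc]
    rcases eq_or_lt_of_le h3 with rfl | h3
    · have : det3 (e j) (e j) (e k) = 0 := by unfold det3; ring
      rw [this]
    rcases eq_or_lt_of_le h4 with rfl | h4
    · have : det3 (e j) (e m) (e m) = 0 := by unfold det3; ring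
      rw [this]
    exact (hCC j m k le_rfl h3 h4 le_rfl).le
  have hx' : crossProduct (e k) (e j) ∉ H e j' (k + 1) := by
    intro hx'
    have := hx' (k + 1) (by omega) le_rfl
    rw [cross_dot] at this
    have e1 : det3 (e k) (e j) (e (k + 1)) = - det3 (e j) (e k) (e (k + 1)) := by unfold det3; ring
    linarith
  rcases Nat.eq_zero_or_pos d with hd0 | hdpos
  · -- `j' = j`
    have hjj : j' = j := by omega
    rw [hjj] at hCC' hx'
    by_cases hfull : k + 2 = j + N
    · exfalso
      apply full_chain_false h.hN h.per h.sum j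
      rw [show j + N - 1 = k + 1 by omega]
      exact hCC'
    refine ⟨j, ⟨by omega, by omega, hCC', ?_⟩, ?_, _, hx, hx'⟩
    · -- propagation of the sign
      have r := four_rel (crossProduct (e (j - 1)) (e j)) (e j) (e (j + 1)) (e k) (e (k + 1))
      simp only [cross_dot] at r
      have z : det3 (e (j - 1)) (e j) (e j) = 0 := by unfold det3; ring
      rw [z, mul_zero, zero_sub] at r
      have p1 : 0 < det3 (e j) (e k) (e (k + 1)) := hk
      have p2 := h.pos j
      have p3 : 0 < det3 (e j) (e (j + 1)) (e (k + 1)) :=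
        hCC' j (j + 1) (k + 1) le_rfl (by omega) (by omega) le_rfl
      have p4 : 0 < det3 (e j) (e (j + 1)) (e k) :=
        hCC' j (j + 1) k le_rfl (by omega) (by omega) (by omega)
      by_contra hc
      push Not at hc
      have q1 := mul_pos p1 p2
      have q2 := mul_neg_of_pos_of_neg p3 hS
      have q3 := mul_nonneg p4.le hc
      linarith
    · intro v hv m h3 h4
      exact hv m h3 (by omega)
  · -- `j' > j`
    have hneg : det3 (e (j' - 1)) (e j') (e (k + 1)) < 0 := by
      have h3 := hmin (d - 1) (by omega)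
      have h4 : ¬ ∀ m : ℤ, j + ((d - 1 : ℕ) : ℤ) ≤ m → m < k →
          0 < det3 (e m) (e (m + 1)) (e (k + 1)) := fun h5 => h3 ⟨by omega, h5⟩
      push Not at h4
      obtain ⟨m, h5, h6, h7⟩ := h4
      have h8 : m = j' - 1 := by
        by_contra hne
        exact absurd (hd2 m (by omega) h6) (not_lt.mpr h7)
      subst h8
      rw [show j' - 1 + 1 = j' by ring] at h7
      exact lt_of_le_of_ne h7 (h.gen _ _ _ (by omega) (by omega) (by omega))
    refine ⟨j', ⟨by omega, by omega, hCC', hneg⟩, ?_, _, hx, hx'⟩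
    intro v hv m h3 h4
    by_cases h5 : j' ≤ m
    · exact hv m h5 (by omega)
    push Not at h5
    -- `e m` is a positive combination of `e j'`, `e k`, `e (k + 1)`
    have hneg' : det3 (e m) (e j') (e (k + 1)) < 0 := by
      rcases eq_or_lt_of_le (show m ≤ j' - 1 by omega) with rfl | h6
      · exact hneg
      have r := four_rel (crossProduct (e j') (e (k + 1))) (e m) (e (j' - 1)) (e j') (e k)
      simp only [cross_dot] at r
      have z : det3 (e j') (e (k + 1)) (e j') = 0 := by unfold det3; ring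
      rw [z, mul_zero, add_zero] at r
      have e1 : det3 (e j') (e (k + 1)) (e m) = det3 (e m) (e j') (e (k + 1)) := by
        unfold det3; ring
      have e2 : det3 (e j') (e (k + 1)) (e (j' - 1)) = det3 (e (j' - 1)) (e j') (e (k + 1)) := by
        unfold det3; ring
      have e3 : det3 (e j') (e (k + 1)) (e k) = - det3 (e j') (e k) (e (k + 1)) := by
        unfold det3; ring
      rw [e1, e2, e3] at r
      have p1 : 0 < det3 (e (j' - 1)) (e j') (e k) :=
        hCC (j' - 1) j' k (by omega) (by omega) (by omega) le_rfl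
      have p2 : 0 < det3 (e m) (e j') (e k) := hCC m j' k h3 h5 (by omega) le_rfl
      have p3 : 0 < det3 (e m) (e (j' - 1)) (e j') := hCC m (j' - 1) j' h3 h6 (by omega) (by omega)
      have p4 : 0 < det3 (e j') (e k) (e (k + 1)) := hR j' (by omega) (by omega)
      by_contra hc
      push Not at hc
      have q1 := mul_nonneg p1.le hc
      have q2 := mul_neg_of_pos_of_neg p2 hneg
      have q3 := mul_pos p3 p4
      nlinarith
    have r := four_rel v (e m) (e j') (e k) (e (k + 1))
    have p1 : 0 < det3 (e j') (e k) (e (k + 1)) := hR j' (by omega) (by omega)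
    have p2 : 0 < det3 (e m) (e k) (e (k + 1)) := hR m h3 (by omega)
    have p3 : 0 < det3 (e m) (e j') (e k) := hCC m j' k h3 h5 (by omega) le_rfl
    have v1 := hv j' le_rfl (by omega)
    have v2 := hv k (by omega) (by omega)
    have v3 := hv (k + 1) (by omega) le_rfl
    by_contra hc
    push Not at hc
    have q1 := mul_neg_of_pos_of_neg p1 hc
    have q2 := mul_nonneg p2.le v1
    have q3 := mul_nonpos_of_nonpos_of_nonneg hneg'.le v2
    have q4 := mul_nonneg p3.le v3
    linarith

theorem Bad.run_false (h : Bad N e) {j₀ k₀ : ℤ} (h₀ : St N e j₀ k₀) : False := by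
  classical
  -- the run
  have hrun : ∃ J : ℕ → ℤ, (∀ t : ℕ, St N e (J t) (k₀ + t)) ∧
      ∀ t : ℕ, H e (J (t + 1)) (k₀ + t + 1) ⊆ H e (J t) (k₀ + t) ∧
        ∃ x ∈ H e (J t) (k₀ + t), x ∉ H e (J (t + 1)) (k₀ + t + 1) := by
    choose! f hf1 hf2 hf3 using fun (p : ℤ × ℤ) (hp : St N e p.1 p.2) => h.step hp
    let J : ℕ → ℤ := fun t => Nat.rec j₀ (fun t j => f (j, k₀ + t)) t
    have hJ : ∀ t : ℕ, St N e (J t) (k₀ + t) := by
      intro t
      induction t with
      | zero => simpa [J] using h₀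
      | succ t ih =>
        have := hf1 (J t, k₀ + t) ih
        show St N e (f (J t, k₀ + t)) (k₀ + ((t + 1 : ℕ) : ℤ))
        rw [show k₀ + ((t + 1 : ℕ) : ℤ) = k₀ + t + 1 by push_cast; ring]
        exact this
    exact ⟨J, hJ, fun t => ⟨hf2 (J t, k₀ + t) (hJ t), hf3 (J t, k₀ + t) (hJ t)⟩⟩
  obtain ⟨J, hJ, hstep⟩ := hrun
  have hmono : ∀ s t : ℕ, s ≤ t → H e (J t) (k₀ + t) ⊆ H e (J s) (k₀ + s) := by
    intro s t hst
    induction t, hst using Nat.le_induction with
    | base => exact subset_rfl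
    | succ t _ ih =>
      refine subset_trans ?_ ih
      have := (hstep t).1
      rw [show k₀ + ((t + 1 : ℕ) : ℤ) = k₀ + t + 1 by push_cast; ring]
      exact this
  -- pigeonhole
  have hbd : ∀ s : ℕ, (k₀ + (N * s : ℕ) - J (N * s)).toNat ∈ Set.Iio N := by
    intro s
    have h1 := (hJ (N * s)).1
    have h2 := (hJ (N * s)).2.1
    show (k₀ + (N * s : ℕ) - J (N * s)).toNat < N
    omega
  obtain ⟨s, t, hst, heq⟩ := Finite.exists_ne_map_eq_of_infinite
    (fun s : ℕ => (⟨_, hbd s⟩ : Set.Iio N))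
  have heq' : (k₀ + (N * s : ℕ) - J (N * s)).toNat = (k₀ + (N * t : ℕ) - J (N * t)).toNat :=
    congrArg Subtype.val heq
  clear heq
  wlog hlt : s < t generalizing s t
  · exact this t s hst.symm heq'.symm (by omega)
  have a1 := (hJ (N * s)).1
  have a2 := (hJ (N * t)).1
  have hJJ : J (N * t) = J (N * s) + N * ((t - s : ℕ) : ℤ) := by
    have e1 : ((N * s : ℕ) : ℤ) = N * s := by push_cast; ring
    have e2 : ((N * t : ℕ) : ℤ) = N * t := by push_cast; ring
    have e3 : ((t - s : ℕ) : ℤ) = t - s := by omega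
    rw [e1] at heq' a1
    rw [e2] at heq' a2
    rw [e3]
    have : k₀ + N * s - J (N * s) = k₀ + N * t - J (N * t) := by omega
    linarith
  have hper : ∀ (r : ℕ) (m : ℤ), e (m + N * r) = e m := by
    intro r
    induction r with
    | zero => intro m; simp
    | succ r ih =>
      intro m
      rw [show m + N * ((r + 1 : ℕ) : ℤ) = (m + N * r) + N by push_cast; ring, h.per, ih]
  have hH : H e (J (N * s)) (k₀ + (N * s : ℕ)) ⊆ H e (J (N * t)) (k₀ + (N * t : ℕ)) := by
    intro v hv m h1 h2
    have h3 := hv (m - N * ((t - s : ℕ) : ℤ)) (by linarith) (by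
      have e1 : ((N * s : ℕ) : ℤ) = N * s := by push_cast; ring
      have e2 : ((N * t : ℕ) : ℤ) = N * t := by push_cast; ring
      have e3 : ((t - s : ℕ) : ℤ) = t - s := by omega
      rw [e1]
      rw [e2] at h2
      rw [e3]
      linarith)
    rw [← hper (t - s) (m - N * ((t - s : ℕ) : ℤ)), sub_add_cancel] at h3
    exact h3
  obtain ⟨x, hx1, hx2⟩ := (hstep (N * s)).2
  apply hx2
  have hNpos : 0 < N := by have := h.hN; omega
  have hle : N * s + 1 ≤ N * t := by
    have : N * (s + 1) ≤ N * t := Nat.mul_le_mul_left N hlt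
    have : N * (s + 1) = N * s + N := by ring
    omega
  have := hmono (N * s + 1) (N * t) hle (hH hx1)
  rw [show k₀ + ((N * s + 1 : ℕ) : ℤ) = k₀ + (N * s : ℕ) + 1 by push_cast; ring] at this
  exact this

theorem Bad.mirror (h : Bad N e) : Bad N (fun i => - e (-i)) := by
  have hd : ∀ a b c : E3, det3 (-a) (-b) (-c) = - det3 a b c := by
    intro a b c
    simp only [det3, Pi.neg_apply]
    ring
  have hr : ∀ a b c : E3, det3 (-a) (-b) (-c) = det3 c b a := by
    intro a b c
    rw [hd]
    unfold det3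
    ring
  refine ⟨h.hN, ?_, ?_, ?_, ?_, ?_⟩
  · intro i
    show - e (-(i + N)) = - e (-i)
    rw [← h.per (-(i + N))]
    congr 2
    ring
  · rw [Finset.sum_neg_distrib, neg_eq_zero]
    have h1 : ∑ i ∈ Finset.range N, e (-(i : ℤ)) = ∑ i ∈ Finset.range N, e ((i : ℤ) + (1 - N)) := by
      rw [← Finset.sum_range_reflect]
      apply Finset.sum_congr rfl
      intro i hi
      have := Finset.mem_range.mp hi
      congr 1
      omega
    rw [h1, sum_shift N e h.per, h.sum]
  · intro i j k h1 h2 h3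
    show det3 (-e (-i)) (-e (-j)) (-e (-k)) ≠ 0
    rw [hr]
    exact h.gen _ _ _ (by omega) (by omega) (by omega)
  · intro i
    show 0 < det3 (-e (-(i - 1))) (-e (-i)) (-e (-(i + 1)))
    rw [hr]
    have := h.pos (-i)
    rw [show -(i + 1) = -i - 1 by ring, show -(i - 1) = -i + 1 by ring]
    exact this
  · intro i j c h1 h2 h3 h4 h5 h6 h7 h8
    apply h.no (-j) (-i) (-c) (by omega) (by omega)
    · simpa using h4
    · simpa using h3
    · rw [show -j - 1 = -(j + 1) by ring]
      simpa using h8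
    · rw [show -j + 1 = -(j - 1) by ring]
      simpa using h7
    · rw [show -i - 1 = -(i + 1) by ring]
      simpa using h6
    · rw [show -i + 1 = -(i - 1) by ring]
      simpa using h5

theorem Bad.run_false' (h : Bad N e) {j k : ℤ} (h1 : j + 2 ≤ k) (h2 : k + 2 ≤ j + N)
    (hCC : CC e j k) (hS : det3 (e j) (e k) (e (k + 1)) < 0) : False := by
  have hr : ∀ a b c : E3, det3 (-a) (-b) (-c) = det3 c b a := by
    intro a b c
    simp only [det3, Pi.neg_apply]
    ring
  apply h.mirror.run_false (j₀ := -k) (k₀ := -j)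
  refine ⟨by omega, by omega, ?_, ?_⟩
  · intro a b c ha hb hc hk
    show 0 < det3 (-e (-a)) (-e (-b)) (-e (-c))
    rw [hr]
    exact hCC _ _ _ (by omega) (by omega) (by omega) (by omega)
  · show det3 (-e (-(-k - 1))) (-e (- -k)) (-e (- -j)) < 0
    rw [hr, show -(-k - 1) = k + 1 by ring, neg_neg, neg_neg]
    exact hS

theorem Bad.false (h : Bad N e) : False := by
  have hN := h.hN
  have key : ∀ l : ℕ, l + 3 ≤ N → CC e 0 (l + 2) := by
    intro l
    induction l with
    | zero =>
      intro _ a b c h1 h2 h3 h4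
      have ha : a = 0 := by push_cast at h4; omega
      have hb : b = 1 := by push_cast at h4; omega
      have hc : c = 2 := by push_cast at h4; omega
      subst ha hb hc
      have := h.pos 1
      norm_num at this
      exact this
    | succ l ih =>
      intro hl
      have hCC := ih (by omega)
      have hk : (l : ℤ) + 2 + 2 ≤ 0 + N := by omega
      have g1 : det3 (e (0 - 1)) (e 0) (e (l + 2)) ≠ 0 := h.gen _ _ _ (by omega) (by omega) (by omega)
      have g2 : det3 (e 0) (e (l + 2)) (e (l + 2 + 1)) ≠ 0 :=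
        h.gen _ _ _ (by omega) (by omega) (by omega)
      have p1 : ¬ det3 (e (0 - 1)) (e 0) (e (l + 2)) < 0 := fun h' =>
        h.run_false (j₀ := 0) (k₀ := l + 2) ⟨by omega, hk, hCC, h'⟩
      have p2 : 0 < det3 (e 0) (e (l + 2)) (e (l + 2 + 1)) := by
        rcases lt_or_gt_of_ne g2 with h' | h'
        · exact absurd (h.run_false' (by omega) hk hCC h') id
        · exact h'
      have hR := right_ext hCC (by omega) h.pos p2
      have hf : ∀ m : ℤ, 0 ≤ m → m < l + 2 → 0 < det3 (e m) (e (m + 1)) (e (l + 2 + 1)) := by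
        by_contra hcon
        push Not at hcon
        -- the largest bad index
        classical
        have hex : ∃ d : ℕ, ((d : ℤ) ≤ l + 1) ∧
            det3 (e (l + 1 - d)) (e (l + 1 - d + 1)) (e (l + 2 + 1)) ≤ 0 := by
          obtain ⟨m, h1, h2, h3⟩ := hcon
          refine ⟨(l + 1 - m).toNat, by omega, ?_⟩
          have : ((l + 1 - m).toNat : ℤ) = l + 1 - m := by omega
          rw [this, show (l : ℤ) + 1 - (l + 1 - m) = m by ring]
          exact h3
        obtain ⟨hd1, hd2⟩ := Nat.find_spec hex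
        have hmin := fun d' (hd' : d' < Nat.find hex) => Nat.find_min hex hd'
        set d := Nat.find hex
        set m₀ : ℤ := l + 1 - d with hm₀
        have hdpos : 0 < d := by
          rcases Nat.eq_zero_or_pos d with h0 | h0
          · exfalso
            rw [hm₀, h0] at hd2
            have := h.pos (l + 2)
            simp only [Nat.cast_zero, sub_zero] at hd2
            rw [show (l : ℤ) + 1 + 1 = l + 2 by ring] at hd2
            rw [show (l : ℤ) + 2 - 1 = l + 1 by ring] at this
            linarith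
          · exact h0
        have hneg : det3 (e m₀) (e (m₀ + 1)) (e (l + 2 + 1)) < 0 :=
          lt_of_le_of_ne hd2 (h.gen _ _ _ (by omega) (by omega) (by omega))
        have hgood : ∀ m : ℤ, m₀ + 1 ≤ m → m < l + 2 →
            0 < det3 (e m) (e (m + 1)) (e (l + 2 + 1)) := by
          intro m h1 h2
          by_contra hc
          push Not at hc
          apply hmin (l + 1 - m).toNat (by omega)
          have : ((l + 1 - m).toNat : ℤ) = l + 1 - m := by omega
          rw [this, show (l : ℤ) + 1 - (l + 1 - m) = m by ring]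
          exact ⟨by omega, hc⟩
        apply h.run_false (j₀ := m₀ + 1) (k₀ := l + 2 + 1)
        refine ⟨by omega, by omega, ?_, ?_⟩
        · exact full_ext (sub_CC hCC (by omega) le_rfl) (fun m h3 h4 => hR m (by omega) h4) hgood
        · rw [show m₀ + 1 - 1 = m₀ by ring]
          exact hneg
      have := full_ext hCC hR hf
      rw [show ((l + 1 : ℕ) : ℤ) + 2 = l + 2 + 1 by push_cast; ring]
      exact this
  apply full_chain_false hN h.per h.sum 0
  have := key (N - 3) (by omega)
  rw [show (((N - 3 : ℕ) : ℤ) + 2) = 0 + N - 1 by omega] at this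
  exact this

end Chain

/-- SB-F. Chain lemma. -/
theorem chain_lemma (N : ℕ) (hN : 4 ≤ N) (e : ℤ → E3) (hper : ∀ i, e (i + N) = e i)
    (hsum : ∑ i ∈ Finset.range N, e i = 0)
    (hgen : ∀ i j k : ℤ, i < j → j < k → k < i + N → det3 (e i) (e j) (e k) ≠ 0)
    (hpos : ∀ i : ℤ, 0 < det3 (e (i - 1)) (e i) (e (i + 1))) :
    ∃ (i j : ℤ) (c : E3), i + 2 ≤ j ∧ j + 2 ≤ i + N ∧ c ⬝ᵥ e i = 0 ∧ c ⬝ᵥ e j = 0 ∧
      0 < c ⬝ᵥ e (i - 1) ∧ 0 < c ⬝ᵥ e (i + 1) ∧ 0 < c ⬝ᵥ e (j - 1) ∧ 0 < c ⬝ᵥ e (j + 1) := by
  by_contra hcon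
  apply Chain.Bad.false (N := N) (e := e)
  refine ⟨hN, hper, hsum, hgen, hpos, ?_⟩
  intro i j c h1 h2 h3 h4 h5 h6 h7 h8
  exact hcon ⟨i, j, c, h1, h2, h3, h4, h5, h6, h7, h8⟩

end Pool.Agent.helper82.SB
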