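import Mathlib
import Pool.Agent.helper82.SB.Chain

set_option autoImplicit false

/-!
# If all torsion signs agree, there is a direction with a spare maximum
-/

namespace Pool.Agent.helper82.SB

open Matrix Filter Topology

theorem cramer_dot (c x a b d : E3) : det3 a b d * (c ⬝ᵥ x) =
    (c ⬝ᵥ a) * det3 x b d + (c ⬝ᵥ b) * det3 a x d + (c ⬝ᵥ d) * det3 a b x := by
  simp only [dot_expand]
  unfold det3; ring

/-- A vector orthogonal to three independent vectors vanishes. -/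
theorem eq_zero_of_dot_zero {a b d c : E3} (h : det3 a b d ≠ 0) (ha : c ⬝ᵥ a = 0)
    (hb : c ⬝ᵥ b = 0) (hd : c ⬝ᵥ d = 0) : c = 0 := by
  have := cramer_dot c c a b d
  rw [ha, hb, hd] at this
  simp only [zero_mul, add_zero] at this
  rcases mul_eq_zero.mp this with h' | h'
  · exact absurd h' h
  · exact dotProduct_self_eq_zero.mp h'

theorem sum_edge {n : ℕ} {P : ℤ → E3} (h : ∀ i, P (i + n) = P i) :
    ∑ i ∈ Finset.range n, edge P i = 0 := by
  have : ∑ i ∈ Finset.range n, edge P i = P n - P 0 := by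
    have := Finset.sum_range_sub (fun i : ℕ => P i) n
    simp only [Nat.cast_zero] at this
    rw [← this]
    apply Finset.sum_congr rfl
    intro i _
    unfold edge
    push_cast
    rfl
  rw [this]
  have := h 0
  rw [zero_add] at this
  rw [this, sub_self]

theorem D_le_one (s t : ℝ) : D s t ≤ 1 := by
  unfold D; split_ifs <;> simp

theorem D_congr {s t s' t' : ℝ} (h1 : 0 < s ↔ 0 < s') (h2 : t < 0 ↔ t' < 0) : D s t = D s' t' := by
  unfold D
  have : (0 < s ∧ t < 0) ↔ (0 < s' ∧ t' < 0) := by rw [h1, h2]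
  split_ifs with a b b
  · rfl
  · exact absurd (this.mp a) b
  · exact absurd (this.mpr b) a
  · rfl

theorem D_eq_zero {s t : ℝ} (h : ¬ (0 < s ∧ t < 0)) : D s t = 0 := by
  unfold D; rw [if_neg h]

theorem D_eq_one {s t : ℝ} (h : 0 < s ∧ t < 0) : D s t = 1 := by
  unfold D; rw [if_pos h]

theorem exists_active_pos (n : ℕ) (hn : 4 ≤ n) (P : ℤ → E3) (hper : ∀ i, P (i + n) = P i)
    (hgen : Gen n P) (hpos : ∀ i : ℤ, 0 < det3 (edge P (i - 1)) (edge P i) (edge P (i + 1)))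
    (M : ℕ) (hM : ∀ v, maxima n P v ≤ M) :
    ∃ (i : ℤ) (w : E3), w ⬝ᵥ edge P i = 0 ∧ 0 < w ⬝ᵥ edge P (i - 1) ∧ 0 < w ⬝ᵥ edge P (i + 1) ∧
      (∀ k : ℤ, ¬ k ≡ i [ZMOD n] → w ⬝ᵥ edge P k ≠ 0) ∧ ∀ᶠ v in 𝓝 w, maxima n P v + 1 ≤ M := by
  classical
  obtain ⟨i, j, c, hij, hji, hci, hcj, h1, h2, h3, h4⟩ := chain_lemma n hn (edge P)
    (edge_per hper) (sum_edge hper) hgen hpos
  set e := edge P with he
  have heper : ∀ k, e (k + n) = e k := edge_per hper
  have hc0 : c ≠ 0 := by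
    rintro rfl
    simp at h1
  -- all other edges are not orthogonal to `c`
  have hck : ∀ k : ℤ, i < k → k < i + n → k ≠ j → c ⬝ᵥ e k ≠ 0 := by
    intro k hk1 hk2 hkj hk0
    apply hc0
    rcases lt_or_gt_of_ne hkj with h | h
    · exact eq_zero_of_dot_zero (hgen i k j hk1 h (by omega)) hci hk0 hcj
    · exact eq_zero_of_dot_zero (hgen i j k (by omega) h hk2) hci hcj hk0
  -- auxiliary vectors
  have hd : det3 (e (i + 1)) (e i) (e j) ≠ 0 := by
    have := hgen i (i + 1) j (by omega) (by omega) (by omega)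
    rw [Chain.det3_swap]
    exact neg_ne_zero.mpr this
  set u : E3 := (det3 (e (i + 1)) (e i) (e j))⁻¹ • crossProduct (e (i + 1)) (e i) with hu
  have hui : u ⬝ᵥ e i = 0 := by
    rw [hu, smul_dotProduct, cross_dot]
    have : det3 (e (i + 1)) (e i) (e i) = 0 := by unfold det3; ring
    rw [this, smul_zero]
  have huj : u ⬝ᵥ e j = 1 := by
    rw [hu, smul_dotProduct, cross_dot, smul_eq_mul, inv_mul_cancel₀ hd]
  have hd' : det3 (e (i + 1)) (e j) (e i) ≠ 0 := by
    rw [Chain.det3_swap']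
    exact neg_ne_zero.mpr hd
  set u' : E3 := (det3 (e (i + 1)) (e j) (e i))⁻¹ • crossProduct (e (i + 1)) (e j) with hu'
  have hui' : u' ⬝ᵥ e i = 1 := by
    rw [hu', smul_dotProduct, cross_dot, smul_eq_mul, inv_mul_cancel₀ hd']
  have huj' : u' ⬝ᵥ e j = 0 := by
    rw [hu', smul_dotProduct, cross_dot]
    have : det3 (e (i + 1)) (e j) (e j) = 0 := by unfold det3; ring
    rw [this, smul_zero]
  -- persistence of signs near a vector
  have hsign : ∀ (x : E3) (a : E3), x ⬝ᵥ a ≠ 0 → ∀ᶠ v in 𝓝 x,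
      (0 < v ⬝ᵥ a ↔ 0 < x ⬝ᵥ a) ∧ (v ⬝ᵥ a < 0 ↔ x ⬝ᵥ a < 0) := by
    intro x a hx
    have hc := (continuous_dot_left a).continuousAt (x := x)
    rcases lt_or_gt_of_ne hx with h | h
    · filter_upwards [hc.eventually (gt_mem_nhds h)] with v hv
      exact ⟨⟨fun h' => absurd h' (not_lt.mpr hv.le), fun h' => absurd h' (not_lt.mpr h.le)⟩,
        ⟨fun _ => h, fun _ => hv⟩⟩
    · filter_upwards [hc.eventually (lt_mem_nhds h)] with v hv
      exact ⟨⟨fun _ => h, fun _ => hv⟩,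
        ⟨fun h' => absurd h' (not_lt.mpr hv.le), fun h' => absurd h' (not_lt.mpr h.le)⟩⟩
  have hsignc : ∀ᶠ v in 𝓝 c, ∀ k ∈ Finset.Ioo i (i + n), k ≠ j →
      (0 < v ⬝ᵥ e k ↔ 0 < c ⬝ᵥ e k) ∧ (v ⬝ᵥ e k < 0 ↔ c ⬝ᵥ e k < 0) := by
    rw [Filter.eventually_all_finset]
    intro k hk
    rw [Finset.mem_Ioo] at hk
    by_cases hkj : k = j
    · exact Filter.Eventually.of_forall fun _ h => absurd hkj h
    · filter_upwards [hsign c (e k) (hck k hk.1 hk.2 hkj)] with v hv _
      exact hv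
  have hline : ∀ y : E3, ∀ᶠ t : ℝ in 𝓝[>] 0, ∀ k ∈ Finset.Ioo i (i + n), k ≠ j →
      (0 < (c + t • y) ⬝ᵥ e k ↔ 0 < c ⬝ᵥ e k) ∧ ((c + t • y) ⬝ᵥ e k < 0 ↔ c ⬝ᵥ e k < 0) := by
    intro y
    have hc : Tendsto (fun t : ℝ => c + t • y) (𝓝[>] 0) (𝓝 c) := by
      have h5 : Continuous fun t : ℝ => c + t • y := by fun_prop
      have h6 := h5.tendsto 0
      simp only [zero_smul, add_zero] at h6
      exact h6.mono_left nhdsWithin_le_nhds
    exact hc.eventually hsignc
  obtain ⟨t, ht, ht0⟩ := ((hline u).and self_mem_nhdsWithin).exists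
  obtain ⟨t', ht', ht0'⟩ := ((hline (-u - u')).and self_mem_nhdsWithin).exists
  have ht0 : 0 < t := ht0
  have ht0' : 0 < t' := ht0'
  set w : E3 := c + t • u with hw
  set v₂ : E3 := c + t' • (-u - u') with hv₂
  have hwi : w ⬝ᵥ e i = 0 := by
    rw [hw, add_dotProduct, smul_dotProduct, hci, hui, smul_zero, add_zero]
  have hwj : w ⬝ᵥ e j = t := by
    rw [hw, add_dotProduct, smul_dotProduct, hcj, huj, smul_eq_mul, mul_one, zero_add]
  have hv₂i : v₂ ⬝ᵥ e i < 0 := by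
    rw [hv₂, add_dotProduct, smul_dotProduct, hci, sub_dotProduct, neg_dotProduct, hui, hui']
    simp only [smul_eq_mul]
    linarith
  have hv₂j : v₂ ⬝ᵥ e j < 0 := by
    rw [hv₂, add_dotProduct, smul_dotProduct, hcj, sub_dotProduct, neg_dotProduct, huj, huj']
    simp only [smul_eq_mul]
    linarith
  have hwk : ∀ k ∈ Finset.Ioo i (i + n), w ⬝ᵥ e k ≠ 0 := by
    intro k hk
    by_cases hkj : k = j
    · rw [hkj, hwj]; exact ht0.ne'
    · have h5 := ht k hk hkj
      rw [Finset.mem_Ioo] at hk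
      rcases lt_or_gt_of_ne (hck k hk.1 hk.2 hkj) with h6 | h6
      · exact (h5.2.mpr h6).ne
      · exact (h5.1.mpr h6).ne'
  have em1 : e (i + n - 1) = e (i - 1) := by
    rw [show i + (n : ℤ) - 1 = i - 1 + n by ring, heper]
  have hwm : 0 < w ⬝ᵥ e (i - 1) := by
    rw [← em1]
    apply (ht _ (by rw [Finset.mem_Ioo]; omega) (by omega)).1.mpr
    rw [em1]
    exact h1
  have hwp : 0 < w ⬝ᵥ e (i + 1) := (ht _ (by rw [Finset.mem_Ioo]; omega) (by omega)).1.mpr h2
  refine ⟨i, w, hwi, hwm, hwp, ?_, ?_⟩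
  · -- reduce an arbitrary index modulo `n`
    intro k hk
    have hn0 : (0 : ℤ) < n := by omega
    have hper' : ∀ (r : ℕ) (m : ℤ), e (m + n * r) = e m := by
      intro r
      induction r with
      | zero => intro m; simp
      | succ r ih =>
        intro m
        rw [show m + n * ((r + 1 : ℕ) : ℤ) = (m + n * r) + n by push_cast; ring, heper, ih]
    have hperz : ∀ (q : ℤ) (m : ℤ), e (m + n * q) = e m := by
      intro q m
      rcases Int.eq_nat_or_neg q with ⟨r, rfl | rfl⟩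
      · exact hper' r m
      · rw [← hper' r (m + n * -(r : ℤ))]
        congr 1
        ring
    set k' : ℤ := i + (k - i) % n with hk'
    have h5 : k = k' + n * ((k - i) / n) := by
      have := Int.emod_add_mul_ediv (k - i) n
      rw [hk']
      linarith
    rw [h5, hperz]
    apply hwk
    rw [Finset.mem_Ioo]
    have h6 := Int.emod_nonneg (k - i) hn0.ne'
    have h7 := Int.emod_lt_of_pos (k - i) hn0
    have h8 : (k - i) % n ≠ 0 := by
      intro h0
      apply hk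
      exact (Int.modEq_iff_dvd.mpr (Int.dvd_of_emod_eq_zero h0)).symm
    omega
  · -- counting
    have hev : ∀ᶠ v in 𝓝 w, ∀ k ∈ Finset.Ioo i (i + n),
        (0 < v ⬝ᵥ e k ↔ 0 < w ⬝ᵥ e k) ∧ (v ⬝ᵥ e k < 0 ↔ w ⬝ᵥ e k < 0) := by
      rw [Filter.eventually_all_finset]
      intro k hk
      exact hsign w (e k) (hwk k hk)
    filter_upwards [hev] with v hv
    have hv2 : maxima n P v₂ ≤ M := hM v₂
    refine le_trans ?_ hv2
    rw [maxima_eq_sum, maxima_eq_sum]
    have s1 := sum_shift n (fun m : ℤ => D (v ⬝ᵥ e (m - 1)) (v ⬝ᵥ e m)) (by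
      intro m
      show D (v ⬝ᵥ e (m + n - 1)) (v ⬝ᵥ e (m + n)) = _
      rw [show m + (n : ℤ) - 1 = m - 1 + n by ring, heper, heper]) i
    have s2 := sum_shift n (fun m : ℤ => D (v₂ ⬝ᵥ e (m - 1)) (v₂ ⬝ᵥ e m)) (by
      intro m
      show D (v₂ ⬝ᵥ e (m + n - 1)) (v₂ ⬝ᵥ e (m + n)) = _
      rw [show m + (n : ℤ) - 1 = m - 1 + n by ring, heper, heper]) i
    rw [← s1, ← s2, Nat.succ_le_iff]
    -- signs of `v₂` and `v` against `c`
    have a1 : ∀ k, i < k → k < i + n → k ≠ j →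
        (0 < v ⬝ᵥ e k ↔ 0 < v₂ ⬝ᵥ e k) ∧ (v ⬝ᵥ e k < 0 ↔ v₂ ⬝ᵥ e k < 0) := by
      intro k hk1 hk2 hkj
      have hk : k ∈ Finset.Ioo i (i + n) := by rw [Finset.mem_Ioo]; exact ⟨hk1, hk2⟩
      have b1 := hv k hk
      have b2 := ht k hk hkj
      have b3 := ht' k hk hkj
      exact ⟨b1.1.trans (b2.1.trans b3.1.symm), b1.2.trans (b2.2.trans b3.2.symm)⟩
    have a2 : (0 < v ⬝ᵥ e (i - 1)) ∧ 0 < v₂ ⬝ᵥ e (i - 1) := by
      have hk : i + n - 1 ∈ Finset.Ioo i (i + n) := by rw [Finset.mem_Ioo]; omega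
      have b1 := hv _ hk
      have b3 := ht' _ hk (by omega)
      rw [em1] at b1 b3
      exact ⟨b1.1.mpr hwm, b3.1.mpr h1⟩
    have a3 : 0 < v ⬝ᵥ e j := by
      have hk : j ∈ Finset.Ioo i (i + n) := by rw [Finset.mem_Ioo]; omega
      exact (hv j hk).1.mpr (by rw [hwj]; exact ht0)
    have a4 : 0 < v₂ ⬝ᵥ e (j - 1) := by
      have hk : j - 1 ∈ Finset.Ioo i (i + n) := by rw [Finset.mem_Ioo]; omega
      exact (ht' _ hk (by omega)).1.mpr h3
    have a5 : 0 < v ⬝ᵥ e (i + 1) := by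
      have hk : i + 1 ∈ Finset.Ioo i (i + n) := by rw [Finset.mem_Ioo]; omega
      exact (hv _ hk).1.mpr hwp
    have a6 : 0 < v ⬝ᵥ e (j + 1) := by
      have hk : j + 1 ∈ Finset.Ioo i (i + n) := by rw [Finset.mem_Ioo]; omega
      exact (hv _ hk).1.mpr ((ht _ hk (by omega)).1.mpr h4)
    apply Finset.sum_lt_sum
    · intro m hm
      have hmn := Finset.mem_range.mp hm
      show D (v ⬝ᵥ e ((m : ℤ) + i - 1)) (v ⬝ᵥ e ((m : ℤ) + i)) ≤
        D (v₂ ⬝ᵥ e ((m : ℤ) + i - 1)) (v₂ ⬝ᵥ e ((m : ℤ) + i))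
      rcases Nat.eq_zero_or_pos m with rfl | hm0
      · have e0 : ((0 : ℕ) : ℤ) + i = i := by simp
        rw [e0, D_eq_one ⟨a2.2, hv₂i⟩]
        exact D_le_one _ _
      by_cases hm1 : m = 1
      · subst hm1
        have e0 : ((1 : ℕ) : ℤ) + i = i + 1 := by push_cast; ring
        rw [e0, D_eq_zero (s := v ⬝ᵥ e (i + 1 - 1)) (fun h => absurd h.2 (not_lt.mpr a5.le))]
        exact Nat.zero_le _
      by_cases hmj : (m : ℤ) + i = j
      · rw [hmj, D_eq_zero (s := v ⬝ᵥ e (j - 1)) (fun h => absurd h.2 (not_lt.mpr a3.le))]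
        exact Nat.zero_le _
      by_cases hmj' : (m : ℤ) + i = j + 1
      · rw [hmj', D_eq_zero (s := v ⬝ᵥ e (j + 1 - 1)) (fun h => absurd h.2 (not_lt.mpr a6.le))]
        exact Nat.zero_le _
      · apply le_of_eq
        apply D_congr
        · exact (a1 _ (by omega) (by omega) (by omega)).1
        · exact (a1 _ (by omega) (by omega) (by omega)).2
    · refine ⟨(j - i).toNat, Finset.mem_range.mpr (by omega), ?_⟩
      have e0 : ((j - i).toNat : ℤ) + i = j := by omega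
      show D (v ⬝ᵥ e (((j - i).toNat : ℤ) + i - 1)) (v ⬝ᵥ e (((j - i).toNat : ℤ) + i)) <
        D (v₂ ⬝ᵥ e (((j - i).toNat : ℤ) + i - 1)) (v₂ ⬝ᵥ e (((j - i).toNat : ℤ) + i))
      rw [e0, D_eq_zero (s := v ⬝ᵥ e (j - 1)) (fun h => absurd h.2 (not_lt.mpr a3.le)),
        D_eq_one ⟨a4, hv₂j⟩]
      exact Nat.zero_lt_one

/-- Reflection in the third coordinate. -/
def refl3 (x : E3) : E3 := ![x 0, x 1, - x 2]

theorem refl3_dot (x y : E3) : refl3 x ⬝ᵥ refl3 y = x ⬝ᵥ y := by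
  simp only [dot_expand, refl3]
  simp

theorem refl3_refl3 (x : E3) : refl3 (refl3 x) = x := by
  ext i
  fin_cases i <;> simp [refl3]

theorem refl3_sub (x y : E3) : refl3 (x - y) = refl3 x - refl3 y := by
  ext i
  fin_cases i <;> simp [refl3] ; ring

theorem det3_refl3 (a b c : E3) : det3 (refl3 a) (refl3 b) (refl3 c) = - det3 a b c := by
  simp only [det3, refl3]
  simp
  ring

theorem continuous_refl3 : Continuous refl3 := by
  unfold refl3
  apply continuous_pi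
  intro i
  fin_cases i
  · exact continuous_apply 0
  · exact continuous_apply 1
  · exact (continuous_apply 2).neg

theorem maxima_refl3 (n : ℕ) (P : ℤ → E3) (v : E3) :
    maxima n (fun i => refl3 (P i)) v = maxima n P (refl3 v) := by
  unfold maxima
  have : ∀ i, v ⬝ᵥ refl3 (P i) = refl3 v ⬝ᵥ P i := by
    intro i
    rw [← refl3_dot, refl3_refl3]
  simp only [this]

/-- SB-G. If all torsion signs agree there is a direction with a spare maximum. -/
theorem exists_active (n : ℕ) (hn : 4 ≤ n) (P : ℤ → E3) (hper : ∀ i, P (i + n) = P i)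
    (hgen : Gen n P) (s : ℝ)
    (hpos : ∀ i : ℤ, 0 < s * det3 (edge P (i - 1)) (edge P i) (edge P (i + 1)))
    (M : ℕ) (hM : ∀ v, maxima n P v ≤ M) :
    ∃ (i : ℤ) (w : E3), w ⬝ᵥ edge P i = 0 ∧ 0 < w ⬝ᵥ edge P (i - 1) ∧ 0 < w ⬝ᵥ edge P (i + 1) ∧
      (∀ k : ℤ, ¬ k ≡ i [ZMOD n] → w ⬝ᵥ edge P k ≠ 0) ∧ ∀ᶠ v in 𝓝 w, maxima n P v + 1 ≤ M := by
  rcases lt_trichotomy s 0 with hs | hs | hs
  · -- mirror image
    have hedge : ∀ i, edge (fun i => refl3 (P i)) i = refl3 (edge P i) := by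
      intro i
      unfold edge
      exact (refl3_sub _ _).symm
    obtain ⟨i, w, h1, h2, h3, h4, h5⟩ := exists_active_pos n hn (fun i => refl3 (P i))
      (by intro i; rw [hper]) (by
        intro i j k a b c
        rw [hedge, hedge, hedge, det3_refl3]
        exact neg_ne_zero.mpr (hgen i j k a b c)) (by
        intro i
        rw [hedge, hedge, hedge, det3_refl3]
        have := hpos i
        by_contra hc
        push Not at hc
        have h6 : 0 ≤ det3 (edge P (i - 1)) (edge P i) (edge P (i + 1)) := by linarith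
        have := mul_nonpos_of_nonpos_of_nonneg hs.le h6
        linarith) M (by
        intro v
        rw [maxima_refl3]
        exact hM _)
    have hdot : ∀ x : E3, refl3 w ⬝ᵥ x = w ⬝ᵥ refl3 x := by
      intro x
      rw [← refl3_dot, refl3_refl3]
    refine ⟨i, refl3 w, ?_, ?_, ?_, ?_, ?_⟩
    · rw [hdot, ← hedge]; exact h1
    · rw [hdot, ← hedge]; exact h2
    · rw [hdot, ← hedge]; exact h3
    · intro k hk
      rw [hdot, ← hedge]
      exact h4 k hk
    · have hc : Tendsto refl3 (𝓝 (refl3 w)) (𝓝 w) := by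
        have := continuous_refl3.tendsto (refl3 w)
        rw [refl3_refl3] at this
        exact this
      filter_upwards [hc.eventually h5] with v hv
      rw [maxima_refl3, refl3_refl3] at hv
      exact hv
  · exfalso
    have := hpos 0
    rw [hs, zero_mul] at this
    exact lt_irrefl _ this
  · exact exists_active_pos n hn P hper hgen
      (fun i => (pos_iff_pos_of_mul_pos (hpos i)).mp hs) M hM

end Pool.Agent.helper82.SB
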