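import Mathlib
import Pool.Agent.helper80.SB.A
import Pool.Agent.helper97.SB.Cut
import Pool.Agent.helper80.SB.D
import Pool.Agent.helper69.SB.E
import Pool.Agent.helper4.SB.H
import Pool.Agent.helper70.SB.Port
import Pool.Agent.helper25.SB.J
import Pool.Agent.helper74.SB.Glue
import Pool.Agent.helper38.SB.Place

set_option autoImplicit false

/-!
# The superbridge index of a connected sum: final assembly
-/

namespace Pool.Agent.helper82.SB

open Matrix Filter Topology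

theorem exists_port (K : PolyKnot) (hK : ¬ Trivial K) (M : ℕ) (hM : ∀ v, maxima K.n K.P v ≤ M)
    (s : ℝ) (hs : s ≠ 0) (κ : ℝ) (hκ : 0 < κ) :
    ∃ L : PolyKnot, Equivalent K L ∧ (∀ v, maxima L.n L.P v ≤ M) ∧ Port L κ ∧ 0 < s * tor L :=
  Pool.Agent.helper70.SB.exists_port_of exists_eps Pool.Agent.helper97.SB.exists_cut exists_gen
    Pool.Agent.helper69.SB.finite_bad_rho Pool.Agent.helper69.SB.insertion_free
    Pool.Agent.helper69.SB.insertion_slack exists_slack K hK M hM s hs κ hκ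

theorem exists_exposed (K : PolyKnot) (hK : ¬ Trivial K) (M : ℕ)
    (hM : ∀ v, maxima K.n K.P v ≤ M) :
    ∃ L : PolyKnot, Equivalent K L ∧ (∀ v, maxima L.n L.P v ≤ M) ∧ Exposed L ∧ tor L ≠ 0 :=
  exists_exposed_of exists_eps Pool.Agent.helper97.SB.exists_cut exists_gen
    Pool.Agent.helper69.SB.insertion_free K hK M hM

/-- For all nontrivial knots `K₁`, `K₂` there is a connected sum `Q` with
`sb Q ≤ sb K₁ + sb K₂ - 1`. -/
theorem main (K₁ K₂ : PolyKnot) (h₁ : ¬ Trivial K₁) (h₂ : ¬ Trivial K₂) :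
    ∃ Q : PolyKnot, IsConnectedSum K₁ K₂ Q ∧
      superbridge Q + 1 ≤ superbridge K₁ + superbridge K₂ := by
  obtain ⟨N₁, e₁, b₁⟩ := superbridge_spec K₁
  obtain ⟨N₂, e₂, b₂⟩ := superbridge_spec K₂
  have t₁ : ¬ Trivial N₁ := fun ⟨L, h, h'⟩ => h₁ ⟨L, e₁.trans h, h'⟩
  have t₂ : ¬ Trivial N₂ := fun ⟨L, h, h'⟩ => h₂ ⟨L, e₂.trans h, h'⟩
  obtain ⟨L₂, f₂, c₂, hexp, htor⟩ := exists_exposed N₂ t₂ _ b₂
  obtain ⟨κ, hκ, hplace⟩ := exists_place L₂ hexp htor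
  obtain ⟨L₁, f₁, c₁, hport, hs⟩ := exists_port N₁ t₁ _ b₁ (tor L₂) htor κ hκ
  obtain ⟨L', hn', g₂, hb, h0, h1, ⟨s, t, hs', ht', hsL, htL⟩, C, hC1, hC2, hC3, hC4, hC5, hC6⟩ :=
    hplace L₁ hport hs
  obtain ⟨Q, q1, q2, q3, q4⟩ := exists_glue L₁ L' hport.1 (hn' ▸ hexp.1) h0 h1 C hC4 hC5 s t hs' ht'
    hsL htL
  refine ⟨Q, ⟨L₁, L', Q, e₁.trans f₁, (e₂.trans f₂).trans g₂,
    ⟨h0, h1, ⟨C, hC1, hC2, hC3, hC4, hC5, hC6⟩, q1, q2, q3⟩, Equivalent.refl Q⟩, ?_⟩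
  have q5 := q4 _ _ c₁ (hb _ c₂)
  have hpos : 1 ≤ superbridge K₁ + superbridge K₂ := by
    have := q5 0
    omega
  have : superbridge Q ≤ superbridge K₁ + superbridge K₂ - 1 := by
    apply superbridge_le (Equivalent.refl Q)
    intro v
    have := q5 v
    omega
  omega

end Pool.Agent.helper82.SB
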